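import Pool.Agent.R483.CC.Mat

set_option autoImplicit false

/-!
# Vertices of operator convex corners: definitions and the main theorem
-/

namespace Pool.Agent.R483.CC

open Matrix
open scoped ComplexOrder ComplexConjugate

/-- The real vector space of Hermitian `n × n` complex matrices. -/
abbrev Herm (n : ℕ) : Type := selfAdjoint (Matrix (Fin n) (Fin n) ℂ)

/-- The matrix of an element of `Herm n`. -/
abbrev mat {n : ℕ} (X : Herm n) : Matrix (Fin n) (Fin n) ℂ := X.1

/-- The pairing `Tr (X Y)` (which is real). -/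
noncomputable def pairing {n : ℕ} (X Y : Herm n) : ℝ := (mat X * mat Y).trace.re

/-- Convex corners: non-empty, closed, convex sets of positive semidefinite matrices which are
hereditary. -/
structure IsConvexCorner {n : ℕ} (C : Set (Herm n)) : Prop where
  nonempty : C.Nonempty
  closed : IsClosed C
  convex : Convex ℝ C
  psd : ∀ A ∈ C, (mat A).PosSemidef
  hereditary : ∀ A ∈ C, ∀ B : Herm n, (mat B).PosSemidef → (mat A - mat B).PosSemidef → B ∈ C

/-- The anti-blocker of `C`. -/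
def antiBlocker {n : ℕ} (C : Set (Herm n)) : Set (Herm n) :=
  {Z | (mat Z).PosSemidef ∧ ∀ X ∈ C, pairing X Z ≤ 1}

/-- `{X | Tr (X Y) = α}` is a supporting hyperplane of `C` at `T`. -/
def Supports {n : ℕ} (C : Set (Herm n)) (Y : Herm n) (α : ℝ) (T : Set (Herm n)) : Prop :=
  Y ≠ 0 ∧ (∀ X ∈ C, pairing X Y ≤ α) ∧ ∀ X ∈ T, pairing X Y = α

/-- `X` is a vertex of `C`: a boundary point of `C` such that the supporting hyperplanes of `C`
at `X` intersect exactly in `{X}`. -/
def IsVertex {n : ℕ} (C : Set (Herm n)) (X : Herm n) : Prop :=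
  X ∈ frontier C ∧ {A : Herm n | ∀ (Y : Herm n) (α : ℝ), Supports C Y α {X} → pairing A Y = α} = {X}

/-- `F` is a facet of `C`: a non-empty subset of the boundary which is cut out of `C` by one
supporting hyperplane and whose affine hull has dimension `n ^ 2 - 1`. -/
def IsFacet {n : ℕ} (C F : Set (Herm n)) : Prop :=
  F.Nonempty ∧ F ⊆ frontier C ∧
    (∃ (Y : Herm n) (α : ℝ), Supports C Y α F ∧ F = {X | X ∈ C ∧ pairing X Y = α}) ∧
    Module.finrank ℝ (affineSpan ℝ F).direction = n ^ 2 - 1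

section

variable {n : ℕ}

theorem pairing_eq (X Y : Herm n) : pairing X Y = tr (mat X) (mat Y) := rfl

theorem herm (X : Herm n) : (mat X).IsHermitian := X.2

theorem pairing_comm (X Y : Herm n) : pairing X Y = pairing Y X := tr_comm _ _

/-- the pairing as a bilinear map -/
noncomputable def pL : Herm n →ₗ[ℝ] Herm n →ₗ[ℝ] ℝ :=
  LinearMap.mk₂ ℝ pairing (fun _ _ _ => tr_add_left _ _ _) (fun _ _ _ => tr_smul_left _ _ _)
    (fun _ _ _ => tr_add_right _ _ _) (fun _ _ _ => tr_smul_right _ _ _)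

theorem pL_apply (X Y : Herm n) : pL X Y = pairing X Y := rfl

/-- the inclusion in the matrices -/
def inc : Herm n →ₗ[ℝ] Matrix (Fin n) (Fin n) ℂ where
  toFun X := mat X
  map_add' _ _ := rfl
  map_smul' _ _ := rfl

instance : Module.Finite ℝ (Herm n) :=
  Module.Finite.of_injective (inc (n := n)) Subtype.val_injective

theorem pL_inj : Function.Injective (pL (n := n)) := by
  rw [← LinearMap.ker_eq_bot, LinearMap.ker_eq_bot']
  intro W hW
  have h1 : pL W W = 0 := by rw [hW]; rfl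
  exact Subtype.ext (tr_self_eq_zero (herm W) h1)

theorem pL_surj : Function.Surjective (pL (n := n)) := by
  have h : Module.finrank ℝ (Herm n) = Module.finrank ℝ (Herm n →ₗ[ℝ] ℝ) :=
    (Subspace.dual_finrank_eq (K := ℝ) (V := Herm n)).symm
  exact (LinearMap.injective_iff_surjective_of_finrank_eq_finrank h).1 pL_inj

/-- multiplication by `i` -/
noncomputable def mulI : Herm n ≃ₗ[ℝ] skewAdjoint (Matrix (Fin n) (Fin n) ℂ) where
  toFun a := ⟨Complex.I • (a : Matrix (Fin n) (Fin n) ℂ),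
    Complex.I_smul_mem_skewAdjoint_iff_isSelfAdjoint.2 a.2⟩
  map_add' a b := by
    apply Subtype.ext
    exact smul_add _ _ _
  map_smul' r a := by
    apply Subtype.ext
    exact smul_comm _ _ _
  invFun b := skewAdjoint.negISMul b
  left_inv a := by
    apply Subtype.ext
    simp [smul_smul]
  right_inv b := by
    apply Subtype.ext
    simp [smul_smul]

theorem finrank_herm : Module.finrank ℝ (Herm n) = n ^ 2 := by
  have h1 := (StarModule.decomposeProdAdjoint ℝ (Matrix (Fin n) (Fin n) ℂ)).finrank_eq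
  have : Module.Finite ℝ (skewAdjoint (Matrix (Fin n) (Fin n) ℂ)) :=
    Module.Finite.equiv (mulI (n := n))
  rw [Module.finrank_prod, ← (mulI (n := n)).finrank_eq, finrank_real_of_complex,
    Module.finrank_matrix] at h1
  simp only [Fintype.card_fin, Module.finrank_self, mul_one] at h1
  nlinarith [h1]

/-- the matrices of a convex corner -/
theorem cor {C : Set (Herm n)} (hC : IsConvexCorner C) : Cor (mat '' C) where
  psd := by
    rintro _ ⟨A, hA, rfl⟩
    exact hC.psd A hA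
  conv := hC.convex.is_linear_image (f := mat) ⟨fun _ _ => rfl, fun _ _ => rfl⟩
  her := by
    rintro _ ⟨A, hA, rfl⟩ B hB hAB
    exact ⟨⟨B, hB.1⟩, hC.hereditary A hA ⟨B, hB.1⟩ hB hAB, rfl⟩

/-- the normal cone -/
def Nc (C : Set (Herm n)) (X : Herm n) : Set (Herm n) :=
  {Y | ∀ A ∈ C, pairing A Y ≤ pairing X Y}

theorem vertex_mem {C : Set (Herm n)} (hC : IsConvexCorner C) {X : Herm n} (hX : IsVertex C X) :
    X ∈ C := by
  have := hX.1.1
  rwa [hC.closed.closure_eq] at this

theorem span_Nc {C : Set (Herm n)} {X : Herm n} (hX : IsVertex C X) :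
    Submodule.span ℝ (Nc C X) = ⊤ := by
  by_contra hne
  obtain ⟨f, hf, hle⟩ := Submodule.exists_le_ker_of_lt_top _ (lt_top_iff_ne_top.2 hne)
  obtain ⟨W, hW⟩ := pL_surj f
  apply hf
  have hWN : ∀ Y ∈ Nc C X, pairing W Y = 0 := by
    intro Y hY
    have h1 : Y ∈ LinearMap.ker f := hle (Submodule.subset_span hY)
    rw [LinearMap.mem_ker, ← hW] at h1
    exact h1
  have h2 : X + W ∈ {A : Herm n | ∀ (Y : Herm n) (α : ℝ), Supports C Y α {X} →
      pairing A Y = α} := by
    intro Y α hY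
    obtain ⟨-, h3, h4⟩ := hY
    have h5 : pairing X Y = α := h4 X rfl
    have h6 : Y ∈ Nc C X := fun A hA => (h3 A hA).trans h5.symm.le
    have h7 : pairing (X + W) Y = pairing X Y + pairing W Y := tr_add_left _ _ _
    rw [h7, hWN Y h6, h5, add_zero]
  rw [hX.2, Set.mem_singleton_iff] at h2
  have h8 : W = 0 := by simpa using h2
  rw [← hW, h8, map_zero]

theorem zero_mem_corner {C : Set (Herm n)} (hC : IsConvexCorner C) : (0 : Herm n) ∈ C := by
  obtain ⟨A, hA⟩ := hC.nonempty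
  refine hC.hereditary A hA 0 PosSemidef.zero ?_
  have : mat A - mat (0 : Herm n) = mat A := sub_zero _
  rw [this]
  exact hC.psd A hA

/-- the quadratic form as a linear functional of the matrix -/
noncomputable def qv (u : Fin n → ℂ) : Herm n →ₗ[ℝ] ℝ where
  toFun Y := (star u ⬝ᵥ (mat Y *ᵥ u)).re
  map_add' a b := by
    have : mat (a + b) = mat a + mat b := rfl
    rw [this, add_mulVec, dotProduct_add, Complex.add_re]
  map_smul' r a := by
    have : mat (r • a) = r • mat a := rfl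
    rw [this, smul_mulVec, dotProduct_smul, Complex.real_smul, Complex.re_ofReal_mul]
    rfl

/-- the vector `X Y u` as a linear function of `Y` -/
noncomputable def xyu (X : Herm n) (u : Fin n → ℂ) : Herm n →ₗ[ℝ] (Fin n → ℂ) where
  toFun Y := mat X *ᵥ (mat Y *ᵥ u)
  map_add' a b := by
    have : mat (a + b) = mat a + mat b := rfl
    rw [this, add_mulVec, mulVec_add]
  map_smul' r a := by
    have : mat (r • a) = r • mat a := rfl
    rw [this, smul_mulVec, mulVec_smul]
    rfl

/-- there is a positive definite normal vector -/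
theorem exists_pd {C : Set (Herm n)} (hC : IsConvexCorner C) {X : Herm n} (hX : IsVertex C X)
    (hX0 : X ≠ 0) : ∃ Z : Herm n, (mat Z).PosDef ∧ Z ∈ Nc C X ∧ 0 < pairing X Z := by
  have hXC := vertex_mem hC hX
  have hS := cor hC
  have hspan := span_Nc hX
  obtain ⟨k, _, _, L, hL, hLL⟩ := factor (hC.psd X hXC)
  have hk : Nonempty k := by
    by_contra hk
    rw [not_nonempty_iff] at hk
    apply hX0
    apply Subtype.ext
    change mat X = 0
    rw [← hL]
    ext a b
    rw [mul_apply]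
    simp
  obtain ⟨T, hTN, hTs⟩ : ∃ T : Finset (Herm n), (T : Set (Herm n)) ⊆ Nc C X ∧
      Submodule.span ℝ (T : Set (Herm n)) = ⊤ := by
    have hfg : (Submodule.span ℝ (Nc C X)).FG := by
      rw [hspan]
      exact Module.finite_def.1 inferInstance
    obtain ⟨T, h1, h2⟩ := (Submodule.fg_span_iff_fg_span_finset_subset _).1 hfg
    exact ⟨T, h1, by rw [← h2, hspan]⟩
  have hN : ∀ Y ∈ Nc C X, ∀ A ∈ mat '' C, tr A (mat Y) ≤ tr (mat X) (mat Y) := by
    rintro Y hY _ ⟨A, hA, rfl⟩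
    exact hY A hA
  have hXS : mat X ∈ mat '' C := ⟨X, hXC, rfl⟩
  have hadd : ∀ Y ∈ Nc C X, ∀ Y' ∈ Nc C X, Y + Y' ∈ Nc C X := by
    intro Y hY Y' hY' A hA
    have h1 : pairing A (Y + Y') = pairing A Y + pairing A Y' := tr_add_right _ _ _
    have h2 : pairing X (Y + Y') = pairing X Y + pairing X Y' := tr_add_right _ _ _
    rw [h1, h2]
    exact add_le_add (hY A hA) (hY' A hA)
  have h0N : (0 : Herm n) ∈ Nc C X := by
    intro A _
    have h1 : pairing A 0 = 0 := by
      have := (pL A).map_zero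
      exact this
    have h2 : pairing X 0 = 0 := by
      have := (pL X).map_zero
      exact this
    rw [h1, h2]
  have hsum : ∀ T' : Finset (Herm n), (T' : Set (Herm n)) ⊆ Nc C X → ∑ Y ∈ T', Y ∈ Nc C X := by
    intro T' hT'
    exact Finset.sum_induction _ (· ∈ Nc C X) (fun a b ha hb => hadd a ha b hb) h0N
      fun Y hY => hT' hY
  -- a normal vector which is positive definite on the range of `X`
  obtain ⟨Y0, hY0⟩ : ∃ Y0, Y0 = ∑ Y ∈ T, Y := ⟨_, rfl⟩
  have hY0N : Y0 ∈ Nc C X := hY0 ▸ hsum T hTN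
  have hqL : ∀ (Y : Herm n) (v : k → ℂ), (star v ⬝ᵥ ((Lᴴ * mat Y * L) *ᵥ v)).re = qv (L *ᵥ v) Y := by
    intro Y v
    change _ = (star (L *ᵥ v) ⬝ᵥ (mat Y *ᵥ (L *ᵥ v))).re
    congr 1
    simp only [star_mulVec, dotProduct_mulVec, vecMul_vecMul, mulVec_mulVec, Matrix.mul_assoc]
  have hq0 : ∀ Y ∈ Nc C X, ∀ v : k → ℂ, 0 ≤ qv (L *ᵥ v) Y := by
    intro Y hY v
    rw [← hqL]
    exact (key1 hS hXS hL (herm Y) (hN Y hY)).re_dotProduct_nonneg v
  have hpd0 : (Lᴴ * mat Y0 * L).PosDef := by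
    have hH := isHermitian_conjTranspose_mul_mul L (herm Y0)
    refine PosDef.of_dotProduct_mulVec_pos hH fun v hv => ?_
    rw [Complex.lt_def]
    refine ⟨?_, (hH.im_star_dotProduct_mulVec_self v).symm⟩
    rw [hqL]
    refine lt_of_le_of_ne (hq0 Y0 hY0N v) fun h0 => ?_
    have h1 : ∀ Y ∈ T, qv (L *ᵥ v) Y = 0 := by
      have h2 : ∑ Y ∈ T, qv (L *ᵥ v) Y = 0 := by
        rw [← map_sum, ← hY0]
        exact h0.symm
      exact (Finset.sum_eq_zero_iff_of_nonneg fun Y hY => hq0 Y (hTN hY) v).1 h2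
    have h3 : Submodule.span ℝ (T : Set (Herm n)) ≤ LinearMap.ker (qv (L *ᵥ v)) :=
      Submodule.span_le.2 fun Y hY => h1 Y hY
    rw [hTs] at h3
    have h4 : qv (L *ᵥ v) (1 : Herm n) = 0 := h3 Submodule.mem_top
    rw [← hqL] at h4
    have h5 : Lᴴ * mat (1 : Herm n) * L = Lᴴ * L := by
      have : mat (1 : Herm n) = 1 := rfl
      rw [this, Matrix.mul_one]
    rw [h5] at h4
    have h6 := hLL.re_dotProduct_pos hv
    exact h6.ne' h4
  have hpd : ∀ Y ∈ Nc C X, (Lᴴ * mat (Y0 + Y) * L).PosDef := by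
    intro Y hY
    have h1 : Lᴴ * mat (Y0 + Y) * L = Lᴴ * mat Y0 * L + Lᴴ * mat Y * L := by
      have : mat (Y0 + Y) = mat Y0 + mat Y := rfl
      rw [this, Matrix.mul_add, Matrix.add_mul]
    rw [h1]
    exact hpd0.add_posSemidef (key1 hS hXS hL (herm Y) (hN Y hY))
  have hZ : ∀ Y : Herm n, ∃ Z : Herm n, Y ∈ Nc C X → (mat Z).PosSemidef ∧ Z ∈ Nc C X ∧
      0 < pairing X Z ∧ ∀ u, mat Z *ᵥ u = 0 → mat X *ᵥ (mat (Y0 + Y) *ᵥ u) = 0 := by
    intro Y
    by_cases hY : Y ∈ Nc C X
    · obtain ⟨Z, h1, h2, h3, h4⟩ := key2 hS hXS hL (herm (Y0 + Y)) (hN _ (hadd _ hY0N _ hY))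
        (hpd Y hY)
      refine ⟨⟨Z, h1.1⟩, fun _ => ⟨h1, fun A hA => h2 _ ⟨A, hA, rfl⟩, ?_, h4⟩⟩
      change 0 < tr (mat X) Z
      rw [h3]
      have h5 := (hpd Y hY).trace_pos
      rw [Complex.lt_def] at h5
      exact h5.1
    · exact ⟨0, fun h => absurd h hY⟩
  choose z hz using hZ
  classical
  obtain ⟨T', hT'⟩ : ∃ T', T' = insert (0 : Herm n) T := ⟨_, rfl⟩
  have hT'N : ∀ Y ∈ T', Y ∈ Nc C X := by
    intro Y hY
    rw [hT', Finset.mem_insert] at hY
    rcases hY with rfl | hY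
    · exact h0N
    · exact hTN hY
  have h0T' : (0 : Herm n) ∈ T' := by
    rw [hT']
    exact Finset.mem_insert_self _ _
  obtain ⟨Zs, hZs⟩ : ∃ Zs, Zs = ∑ Y ∈ T', z Y := ⟨_, rfl⟩
  have hqs : ∀ u, qv u Zs = ∑ Y ∈ T', qv u (z Y) := fun u => by rw [hZs, map_sum]
  have hqz : ∀ u, ∀ Y ∈ T', 0 ≤ qv u (z Y) := fun u Y hY =>
    ((hz Y (hT'N Y hY)).1).re_dotProduct_nonneg u
  refine ⟨Zs, ?_, ?_, ?_⟩
  · refine PosDef.of_dotProduct_mulVec_pos (herm Zs) fun u hu => ?_
    rw [Complex.lt_def]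
    refine ⟨?_, ((herm Zs).im_star_dotProduct_mulVec_self u).symm⟩
    change 0 < qv u Zs
    rw [hqs]
    refine lt_of_le_of_ne (Finset.sum_nonneg (hqz u)) fun h0 => ?_
    have h1 := (Finset.sum_eq_zero_iff_of_nonneg (hqz u)).1 h0.symm
    have h2 : ∀ Y ∈ T', mat X *ᵥ (mat (Y0 + Y) *ᵥ u) = 0 := by
      intro Y hY
      obtain ⟨g1, -, -, g4⟩ := hz Y (hT'N Y hY)
      apply g4
      rw [← g1.dotProduct_mulVec_zero_iff]
      apply Complex.ext
      · exact h1 Y hY
      · exact g1.1.im_star_dotProduct_mulVec_self u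
    have h3 : mat X *ᵥ (mat Y0 *ᵥ u) = 0 := by
      have := h2 0 h0T'
      rwa [add_zero] at this
    have h4 : ∀ Y ∈ T, xyu X u Y = 0 := by
      intro Y hY
      have h5 : xyu X u (Y0 + Y) = 0 := h2 Y (by rw [hT']; exact Finset.mem_insert_of_mem hY)
      have h6 : xyu X u Y0 = 0 := h3
      rw [map_add, h6, zero_add] at h5
      exact h5
    have h7 : Submodule.span ℝ (T : Set (Herm n)) ≤ LinearMap.ker (xyu X u) :=
      Submodule.span_le.2 fun Y hY => h4 Y hY
    rw [hTs] at h7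
    have h8 : ∀ Y : Herm n, mat X *ᵥ (mat Y *ᵥ u) = 0 := fun Y => h7 Submodule.mem_top
    have h9 : mat X *ᵥ u = 0 := by
      have := h8 1
      have e : mat (1 : Herm n) = 1 := rfl
      rwa [e, one_mulVec] at this
    apply hX0
    apply Subtype.ext
    change mat X = 0
    apply Matrix.ext_of_mulVec_single
    intro i
    rw [zero_mulVec]
    obtain ⟨w, hw⟩ : ∃ w : Fin n → ℂ, w = Pi.single i 1 := ⟨_, rfl⟩
    rw [← hw]
    have h10 : (vecMulVec u (star w) + vecMulVec w (star u)).IsHermitian := by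
      rw [IsHermitian, conjTranspose_add, conjTranspose_vecMulVec, conjTranspose_vecMulVec,
        star_star, star_star, add_comm]
    have h11 := h8 ⟨_, h10⟩
    change mat X *ᵥ ((vecMulVec u (star w) + vecMulVec w (star u)) *ᵥ u) = 0 at h11
    rw [add_mulVec, vecMulVec_mulVec, vecMulVec_mulVec, mulVec_add] at h11
    simp only [op_smul_eq_smul, mulVec_smul] at h11
    rw [h9, smul_zero, zero_add] at h11
    rcases smul_eq_zero.1 h11 with h12 | h12
    · exact absurd (dotProduct_star_self_eq_zero.1 h12) hu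
    · exact h12
  · rw [hZs]
    exact Finset.sum_induction _ (· ∈ Nc C X) (fun a b ha hb => hadd a ha b hb) h0N
      fun Y hY => (hz Y (hT'N Y hY)).2.1
  · have h1 : pairing X Zs = ∑ Y ∈ T', pairing X (z Y) := by
      have : pL X Zs = ∑ Y ∈ T', pL X (z Y) := by rw [hZs, map_sum]
      exact this
    rw [h1]
    exact Finset.sum_pos (fun Y hY => (hz Y (hT'N Y hY)).2.2.1) ⟨0, h0T'⟩

/-- the main theorem -/
theorem facet_of_vertex {C : Set (Herm n)} (hC : IsConvexCorner C) {X : Herm n}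
    (hX : IsVertex C X) (hX0 : X ≠ 0) :
    IsFacet (antiBlocker C) {Z | Z ∈ antiBlocker C ∧ pairing X Z = 1} := by
  have hXC := vertex_mem hC hX
  obtain ⟨Zs, hZpd, hZN, hZX⟩ := exists_pd hC hX hX0
  have hsl : ∀ (r : ℝ) (A B : Herm n), pairing A (r • B) = r * pairing A B := fun r A B =>
    tr_smul_right _ _ _
  have had : ∀ (A B B' : Herm n), pairing A (B + B') = pairing A B + pairing A B' :=
    fun A B B' => tr_add_right _ _ _
  -- elements of the face from normal vectors
  have hface : ∀ (Z : Herm n), (mat Z).PosSemidef → Z ∈ Nc C X → 0 < pairing X Z →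
      (pairing X Z)⁻¹ • Z ∈ {Z | Z ∈ antiBlocker C ∧ pairing X Z = 1} := by
    intro Z h1 h2 h3
    refine ⟨⟨h1.smul (inv_nonneg.2 h3.le), fun A hA => ?_⟩, ?_⟩
    · rw [hsl, inv_mul_le_one₀ h3]
      exact h2 A hA
    · rw [hsl, inv_mul_cancel₀ h3.ne']
  obtain ⟨Z0, hZ0⟩ : ∃ Z0, Z0 = (pairing X Zs)⁻¹ • Zs := ⟨_, rfl⟩
  have hZ0F := hface Zs hZpd.posSemidef hZN hZX
  rw [← hZ0] at hZ0F
  have hZ0pd : (mat Z0).PosDef := by
    rw [hZ0]
    exact hZpd.smul (inv_pos.2 hZX)
  obtain ⟨F, hF⟩ : ∃ F, F = {Z | Z ∈ antiBlocker C ∧ pairing X Z = 1} := ⟨_, rfl⟩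
  rw [← hF] at hface hZ0F ⊢
  have hXX : 0 < pairing X X := by
    refine lt_of_le_of_ne (tr_self_nonneg (herm X)) fun h => hX0 ?_
    exact Subtype.ext (tr_self_eq_zero (herm X) h.symm)
  refine ⟨⟨Z0, hZ0F⟩, ?_, ⟨X, 1, ⟨hX0, fun Z hZ => ?_, fun Z hZ => ?_⟩, ?_⟩, ?_⟩
  · intro Z hZ
    rw [hF] at hZ
    refine ⟨subset_closure hZ.1, fun hint => ?_⟩
    have hcont : Continuous fun t : ℝ => Z + t • X := by
      have g1 : Continuous fun t : ℝ => mat Z + t • mat X :=
        continuous_const.add (continuous_id.smul continuous_const)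
      exact g1.subtype_mk fun t => (Z + t • X).2
    have h1 : ∀ᶠ t in nhds (0 : ℝ), Z + t • X ∈ antiBlocker C := by
      have h2 : Filter.Tendsto (fun t : ℝ => Z + t • X) (nhds 0) (nhds (Z + (0 : ℝ) • X)) :=
        hcont.tendsto 0
      rw [zero_smul, add_zero] at h2
      exact h2.eventually (mem_interior_iff_mem_nhds.1 hint)
    obtain ⟨δ, hδ, h3⟩ := Metric.eventually_nhds_iff.1 h1
    have h4 : Z + (δ / 2) • X ∈ antiBlocker C := h3 (by
      rw [Real.dist_eq, sub_zero, abs_of_pos (by positivity)]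
      linarith)
    have h5 := h4.2 X hXC
    rw [had, hsl, hZ.2] at h5
    have h6 : 0 < δ / 2 * pairing X X := by positivity
    linarith
  · rw [pairing_comm]
    exact hZ.2 X hXC
  · rw [hF] at hZ
    rw [pairing_comm]
    exact hZ.2
  · rw [hF]
    ext Z
    simp only [Set.mem_ofPred_eq]
    rw [pairing_comm]
  · -- the dimension
    obtain ⟨D, hD⟩ : ∃ D, D = (affineSpan ℝ F).direction := ⟨_, rfl⟩
    rw [← hD]
    have hmem : ∀ Z ∈ F, Z - Z0 ∈ D := by
      intro Z hZ
      rw [hD]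
      exact AffineSubspace.vsub_mem_direction (subset_affineSpan ℝ F hZ)
        (subset_affineSpan ℝ F hZ0F)
    have hXZ0 : pairing X Z0 = 1 := by
      rw [hF] at hZ0F
      exact hZ0F.2
    have hZ0N : Z0 ∈ Nc C X := by
      rw [hF] at hZ0F
      intro A hA
      rw [hZ0F.2]
      exact hZ0F.1.2 A hA
    let φ : Herm n →ₗ[ℝ] Herm n := LinearMap.id - (pL X).smulRight Z0
    have hφ : ∀ Y, φ Y = Y - pairing X Y • Z0 := fun Y => rfl
    have h1 : ∀ Y ∈ Nc C X, φ Y ∈ D := by
      intro Y hY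
      obtain ⟨ε, hε, h2⟩ := pd_pert hZ0pd (herm Y)
      have hx : 0 ≤ pairing X Y := by
        have := hY 0 (zero_mem_corner hC)
        have h0 : pairing 0 Y = 0 := by
          have := LinearMap.map_zero₂ pL Y
          exact this
        rwa [h0] at this
      have h3 : Z0 + ε • Y ∈ Nc C X := by
        intro A hA
        rw [had, had, hsl, hsl]
        have g1 := hZ0N A hA
        have g2 := mul_le_mul_of_nonneg_left (hY A hA) hε.le
        linarith
      have h4 : pairing X (Z0 + ε • Y) = 1 + ε * pairing X Y := by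
        rw [had, hsl, hXZ0]
      have h5 : 0 < 1 + ε * pairing X Y := by positivity
      have h6 := hmem _ (hface _ h2 h3 (by rw [h4]; exact h5))
      rw [h4] at h6
      have h7 : φ Y = ε⁻¹ • ((1 + ε * pairing X Y) •
          ((1 + ε * pairing X Y)⁻¹ • (Z0 + ε • Y) - Z0)) := by
        rw [hφ, smul_sub, smul_smul, mul_inv_cancel₀ h5.ne', one_smul, smul_sub, smul_add,
          smul_smul, inv_mul_cancel₀ hε.ne', one_smul, smul_smul, mul_add, mul_one,
          inv_mul_cancel_left₀ hε.ne', add_smul]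
        abel
      rw [h7]
      exact D.smul_mem _ (D.smul_mem _ h6)
    have h8 : ∀ V, φ V ∈ D := by
      have h9 : Submodule.span ℝ (Nc C X) ≤ D.comap φ := Submodule.span_le.2 fun Y hY => h1 Y hY
      rw [span_Nc hX] at h9
      exact fun V => h9 Submodule.mem_top
    have hker : D = LinearMap.ker (pL X) := by
      apply le_antisymm
      · rw [hD, direction_affineSpan, vectorSpan_def, Submodule.span_le]
        rintro _ ⟨a, ha, b, hb, rfl⟩
        rw [hF] at ha hb
        change pL X (a - b) = 0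
        rw [map_sub, pL_apply, pL_apply, ha.2, hb.2, sub_self]
      · intro V hV
        have hV0 : pairing X V = 0 := hV
        have := h8 V
        rwa [hφ, hV0, zero_smul, sub_zero] at this
    have hne : pL X ≠ 0 := by
      intro h
      have : pL X X = 0 := by rw [h]; rfl
      exact hXX.ne' this
    have h10 := Module.Dual.finrank_ker_add_one_of_ne_zero (K := ℝ) (V₁ := Herm n) (f := pL X) hne
    rw [finrank_herm] at h10
    rw [hker]
    omega

end

end Pool.Agent.R483.CC
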