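import Mathlib

set_option autoImplicit false

/-!
# Operator convex corners: the matrix part
-/

namespace Pool.Agent.R483.CC

open Matrix
open scoped ComplexOrder ComplexConjugate

section mat

set_option linter.unusedSectionVars false

variable {m k : Type} [Fintype m] [DecidableEq m] [Fintype k] [DecidableEq k]

/-- the real part of the trace of a product -/
noncomputable def tr (A B : Matrix m m ℂ) : ℝ := (A * B).trace.re

theorem tr_add_left (A B C : Matrix m m ℂ) : tr (A + B) C = tr A C + tr B C := by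
  simp [tr, add_mul, trace_add]

theorem tr_add_right (A B C : Matrix m m ℂ) : tr A (B + C) = tr A B + tr A C := by
  simp [tr, mul_add, trace_add]

theorem tr_sub_left (A B C : Matrix m m ℂ) : tr (A - B) C = tr A C - tr B C := by
  simp [tr, sub_mul, trace_sub]

theorem tr_sub_right (A B C : Matrix m m ℂ) : tr A (B - C) = tr A B - tr A C := by
  simp [tr, mul_sub, trace_sub]

theorem tr_smul_left (r : ℝ) (A B : Matrix m m ℂ) : tr (r • A) B = r * tr A B := by
  simp [tr, trace_smul]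

theorem tr_smul_right (r : ℝ) (A B : Matrix m m ℂ) : tr A (r • B) = r * tr A B := by
  simp [tr, trace_smul]

theorem tr_comm (A B : Matrix m m ℂ) : tr A B = tr B A := by
  rw [tr, trace_mul_comm, tr]

theorem tr_self_eq_zero {A : Matrix m m ℂ} (hA : A.IsHermitian) (h : tr A A = 0) : A = 0 := by
  have h1 : (Aᴴ * A).trace = 0 := by
    have h2 : 0 ≤ (Aᴴ * A).trace := (posSemidef_conjTranspose_mul_self A).trace_nonneg
    rw [Complex.le_def] at h2
    apply Complex.ext
    · rw [hA.eq]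
      exact h
    · exact h2.2.symm
  exact trace_conjTranspose_mul_self_eq_zero_iff.1 h1

theorem tr_self_nonneg {A : Matrix m m ℂ} (hA : A.IsHermitian) : 0 ≤ tr A A := by
  have h2 : 0 ≤ (Aᴴ * A).trace := (posSemidef_conjTranspose_mul_self A).trace_nonneg
  rw [Complex.le_def] at h2
  rw [hA.eq] at h2
  exact h2.1

theorem cont_qf (D : Matrix m m ℂ) : Continuous fun x : m → ℂ => (star x ⬝ᵥ (D *ᵥ x)).re := by
  have h1 : Continuous fun x : m → ℂ => D *ᵥ x := continuous_const.matrix_mulVec continuous_id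
  have h2 : Continuous fun x : m → ℂ => star x ⬝ᵥ (D *ᵥ x) :=
    (continuous_star).dotProduct h1
  exact Complex.continuous_re.comp h2

theorem qf_smul (D : Matrix m m ℂ) (c : ℝ) (x : m → ℂ) :
    (star (c • x) ⬝ᵥ (D *ᵥ (c • x))).re = c ^ 2 * (star x ⬝ᵥ (D *ᵥ x)).re := by
  rw [star_smul, mulVec_smul, smul_dotProduct, dotProduct_smul]
  simp only [star_trivial, Complex.real_smul, Complex.mul_re, Complex.ofReal_re,
    Complex.ofReal_im, zero_mul, sub_zero]
  ring

theorem psd_of_re {D : Matrix m m ℂ} (hD : D.IsHermitian)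
    (h : ∀ x : m → ℂ, 0 ≤ (star x ⬝ᵥ (D *ᵥ x)).re) : D.PosSemidef := by
  refine PosSemidef.of_dotProduct_mulVec_nonneg hD fun x => ?_
  rw [Complex.le_def]
  refine ⟨h x, ?_⟩
  have := hD.im_star_dotProduct_mulVec_self x
  exact this.symm

theorem herm_smul {H : Matrix m m ℂ} (hH : H.IsHermitian) (r : ℝ) : (r • H).IsHermitian := by
  rw [IsHermitian, conjTranspose_smul, star_trivial, hH.eq]

/-- a small Hermitian perturbation of a positive definite matrix is positive semidefinite -/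
theorem pd_pert {D H : Matrix m m ℂ} (hD : D.PosDef) (hH : H.IsHermitian) :
    ∃ ε : ℝ, 0 < ε ∧ (D + ε • H).PosSemidef := by
  have hS : IsCompact (Metric.sphere (0 : m → ℂ) 1) := isCompact_sphere 0 1
  by_cases hne : (Metric.sphere (0 : m → ℂ) 1).Nonempty
  · obtain ⟨x0, hx0, hmin⟩ := hS.exists_isMinOn hne (cont_qf D).continuousOn
    obtain ⟨G, hG⟩ := hS.exists_bound_of_continuousOn (cont_qf H).continuousOn
    have hx0n : x0 ≠ 0 := by
      rintro rfl
      simp at hx0
    have hpos : 0 < (star x0 ⬝ᵥ (D *ᵥ x0)).re := hD.re_dotProduct_pos hx0n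
    have hG0 : 0 ≤ G := (norm_nonneg _).trans (hG x0 hx0)
    refine ⟨(star x0 ⬝ᵥ (D *ᵥ x0)).re / (G + 1), by positivity, ?_⟩
    refine psd_of_re (hD.1.add (herm_smul hH _)) fun x => ?_
    by_cases hx : x = 0
    · subst hx
      simp
    have hn : 0 < ‖x‖ := norm_pos_iff.2 hx
    have hy : (‖x‖⁻¹ • x) ∈ Metric.sphere (0 : m → ℂ) 1 := by
      rw [mem_sphere_zero_iff_norm, norm_smul, norm_inv, norm_norm, inv_mul_cancel₀ hn.ne']
    have e1 : x = ‖x‖ • (‖x‖⁻¹ • x) := by
      rw [smul_smul, mul_inv_cancel₀ hn.ne', one_smul]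
    generalize ‖x‖⁻¹ • x = y at hy e1
    rw [e1, qf_smul]
    refine mul_nonneg (sq_nonneg _) ?_
    rw [add_mulVec, dotProduct_add, Complex.add_re, smul_mulVec, dotProduct_smul,
      Complex.real_smul, Complex.re_ofReal_mul]
    have h1 : (star x0 ⬝ᵥ (D *ᵥ x0)).re ≤ (star y ⬝ᵥ (D *ᵥ y)).re := hmin hy
    have h2 := (abs_le.1 (hG y hy)).1
    set F := (star x0 ⬝ᵥ (D *ᵥ x0)).re with hF
    have h3 : F / (G + 1) * (star y ⬝ᵥ (H *ᵥ y)).re ≥ F / (G + 1) * (-G) :=
      mul_le_mul_of_nonneg_left h2 (by positivity)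
    have h4 : F / (G + 1) * (-G) ≥ -F := by
      have : F / (G + 1) * (G + 1) = F := by field_simp
      have h5 : 0 ≤ F / (G + 1) := by positivity
      nlinarith
    linarith
  · refine ⟨1, one_pos, ?_⟩
    refine psd_of_re (hD.1.add (herm_smul hH _)) fun x => ?_
    by_cases hx : x = 0
    · subst hx
      simp
    have hn : 0 < ‖x‖ := norm_pos_iff.2 hx
    exfalso
    apply hne
    refine ⟨‖x‖⁻¹ • x, ?_⟩
    rw [mem_sphere_zero_iff_norm, norm_smul, norm_inv, norm_norm, inv_mul_cancel₀ hn.ne']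

/-- factorization of a positive semidefinite matrix by a matrix of full column rank -/
theorem factor {X : Matrix m m ℂ} (hX : X.PosSemidef) :
    ∃ (r : Type) (_ : Fintype r) (_ : DecidableEq r) (L : Matrix m r ℂ),
      L * Lᴴ = X ∧ (Lᴴ * L).PosDef := by
  classical
  let lam := hX.1.eigenvalues
  let U : Matrix m m ℂ := (hX.1.eigenvectorUnitary : Matrix m m ℂ)
  have hlam : ∀ i, 0 ≤ lam i := hX.eigenvalues_nonneg
  have hU : Uᴴ * U = 1 := by
    have := Unitary.coe_star_mul_self hX.1.eigenvectorUnitary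
    exact this
  have hsp : X = U * diagonal (fun i => (lam i : ℂ)) * Uᴴ := by
    have := hX.1.spectral_theorem
    rw [Unitary.conjStarAlgAut_apply] at this
    exact this
  let L : Matrix m {i : m // lam i ≠ 0} ℂ :=
    Matrix.of fun i j => U i j.1 * ((Real.sqrt (lam j.1) : ℝ) : ℂ)
  have hL : ∀ i j, L i j = U i j.1 * ((Real.sqrt (lam j.1) : ℝ) : ℂ) := fun i j => rfl
  have hs : ∀ j : {i : m // lam i ≠ 0}, ((Real.sqrt (lam j.1) : ℝ) : ℂ) *
      ((Real.sqrt (lam j.1) : ℝ) : ℂ) = (lam j.1 : ℂ) := by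
    intro j
    rw [← Complex.ofReal_mul, Real.mul_self_sqrt (hlam _)]
  refine ⟨{i : m // lam i ≠ 0}, inferInstance, inferInstance, L, ?_, ?_⟩
  · ext a b
    have e1 : ∀ j : m, (U * diagonal (fun i => (lam i : ℂ))) a j * Uᴴ j b =
        U a j * (lam j : ℂ) * star (U b j) := by
      intro j
      rw [mul_diagonal, conjTranspose_apply]
    have e0 : X a b = ∑ j, U a j * (lam j : ℂ) * star (U b j) := by
      rw [hsp, mul_apply]
      exact Finset.sum_congr rfl fun j _ => e1 j
    rw [e0, mul_apply]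
    simp only [conjTranspose_apply, hL]
    have e2 : ∀ j : {i : m // lam i ≠ 0}, U a j.1 * ((Real.sqrt (lam j.1) : ℝ) : ℂ) *
        star (U b j.1 * ((Real.sqrt (lam j.1) : ℝ) : ℂ)) =
        U a j.1 * (lam j.1 : ℂ) * star (U b j.1) := by
      intro j
      have h1 := hs j
      rw [star_mul', Complex.star_def, Complex.conj_ofReal]
      linear_combination (U a j.1 * (starRingEnd ℂ) (U b j.1)) * h1
    rw [Finset.sum_congr rfl fun j _ => e2 j]
    rw [← Fintype.sum_subtype_add_sum_subtype (fun j => lam j ≠ 0)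
      (fun j => U a j * (lam j : ℂ) * star (U b j))]
    have e3 : ∑ j : {i : m // ¬ lam i ≠ 0}, U a j.1 * (lam j.1 : ℂ) * star (U b j.1) = 0 := by
      refine Finset.sum_eq_zero fun j _ => ?_
      have : lam j.1 = 0 := not_not.1 j.2
      rw [this]
      simp
    rw [e3, add_zero]
  · have e : Lᴴ * L = diagonal fun j : {i : m // lam i ≠ 0} => (lam j.1 : ℂ) := by
      ext a b
      rw [mul_apply]
      simp only [conjTranspose_apply, hL]
      have e4 : ∀ j : m, star (U j a.1 * ((Real.sqrt (lam a.1) : ℝ) : ℂ)) *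
          (U j b.1 * ((Real.sqrt (lam b.1) : ℝ) : ℂ)) =
          (((Real.sqrt (lam a.1) : ℝ) : ℂ) * ((Real.sqrt (lam b.1) : ℝ) : ℂ)) *
            (Uᴴ a.1 j * U j b.1) := by
        intro j
        rw [star_mul', conjTranspose_apply, Complex.star_def, Complex.conj_ofReal]
        ring
      rw [Finset.sum_congr rfl fun j _ => e4 j, ← Finset.mul_sum, ← mul_apply, hU]
      by_cases hab : a = b
      · subst hab
        rw [one_apply_eq, mul_one, diagonal_apply_eq, hs]
      · rw [one_apply_ne (fun h => hab (Subtype.ext h)), mul_zero, diagonal_apply_ne _ hab]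
    rw [e]
    refine PosDef.diagonal fun j => ?_
    have h1 : 0 < lam j.1 := lt_of_le_of_ne (hlam _) (Ne.symm j.2)
    exact_mod_cast h1

/-- the matrix form of a convex corner -/
structure Cor (S : Set (Matrix m m ℂ)) : Prop where
  psd : ∀ A ∈ S, A.PosSemidef
  conv : Convex ℝ S
  her : ∀ A ∈ S, ∀ B : Matrix m m ℂ, B.PosSemidef → (A - B).PosSemidef → B ∈ S

variable {S : Set (Matrix m m ℂ)} {X Y : Matrix m m ℂ} {L : Matrix m k ℂ}

theorem tr_sandwich (L : Matrix m k ℂ) (V : Matrix k k ℂ) (Y : Matrix m m ℂ) :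
    tr (L * V * Lᴴ) Y = tr V (Lᴴ * Y * L) := by
  unfold tr
  congr 1
  rw [show L * V * Lᴴ * Y = L * (V * Lᴴ * Y) by simp only [Matrix.mul_assoc], trace_mul_comm]
  simp only [Matrix.mul_assoc]

theorem tr_vec (v : k → ℂ) (T : Matrix k k ℂ) :
    tr (vecMulVec v (star v)) T = (star v ⬝ᵥ (T *ᵥ v)).re := by
  unfold tr
  rw [vecMulVec_mul, trace_vecMulVec, dotProduct_comm, dotProduct_mulVec]

/-- normal vectors are positive on the range of `X` -/
theorem key1 (hS : Cor S) (hX : X ∈ S) (hL : L * Lᴴ = X) (hY : Y.IsHermitian)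
    (hN : ∀ A ∈ S, tr A Y ≤ tr X Y) : (Lᴴ * Y * L).PosSemidef := by
  refine psd_of_re (isHermitian_conjTranspose_mul_mul L hY) fun v => ?_
  have hV : (vecMulVec v (star v)).PosSemidef := posSemidef_vecMulVec_self_star v
  obtain ⟨ε, hε, h1⟩ := pd_pert (PosDef.one : (1 : Matrix k k ℂ).PosDef) hV.1.neg
  have e1 : X - L * (1 + ε • -vecMulVec v (star v)) * Lᴴ =
      L * (ε • vecMulVec v (star v)) * Lᴴ := by
    rw [← hL, Matrix.mul_add, Matrix.add_mul, smul_neg, Matrix.mul_one, Matrix.mul_neg,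
      Matrix.neg_mul]
    abel
  have h2 : L * (1 + ε • -vecMulVec v (star v)) * Lᴴ ∈ S := by
    refine hS.her X hX _ (h1.mul_mul_conjTranspose_same L) ?_
    rw [e1]
    exact (hV.smul hε.le).mul_mul_conjTranspose_same L
  have h3 := hN _ h2
  have h4 : 0 ≤ tr (X - L * (1 + ε • -vecMulVec v (star v)) * Lᴴ) Y := by
    rw [tr_sub_left]
    linarith
  rw [e1, tr_sandwich, tr_smul_left, tr_vec] at h4
  exact nonneg_of_mul_nonneg_right h4 hε

/-- the main inequality -/
theorem key2 (hS : Cor S) (hX : X ∈ S) (hL : L * Lᴴ = X) (hY : Y.IsHermitian)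
    (hN : ∀ A ∈ S, tr A Y ≤ tr X Y) (hT : (Lᴴ * Y * L).PosDef) :
    ∃ Z : Matrix m m ℂ, Z.PosSemidef ∧ (∀ A ∈ S, tr A Z ≤ tr X Z) ∧
      tr X Z = (Lᴴ * Y * L).trace.re ∧ ∀ u, Z *ᵥ u = 0 → X *ᵥ (Y *ᵥ u) = 0 := by
  obtain ⟨T, hTd⟩ : ∃ T, T = Lᴴ * Y * L := ⟨_, rfl⟩
  rw [← hTd] at hT ⊢
  have hTi : T⁻¹.PosDef := hT.inv
  have hu : IsUnit T.det := (isUnit_iff_isUnit_det T).1 hT.isUnit
  have h1 : T⁻¹ * T = 1 := nonsing_inv_mul T hu
  have h2 : T * T⁻¹ = 1 := mul_nonsing_inv T hu
  have hTiH : (T⁻¹)ᴴ = T⁻¹ := hTi.1.eq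
  obtain ⟨K, hK⟩ : ∃ K, K = L * (T⁻¹ * Lᴴ * Y) := ⟨_, rfl⟩
  obtain ⟨Z, hZ⟩ : ∃ Z, Z = (Lᴴ * Y)ᴴ * T⁻¹ * (Lᴴ * Y) := ⟨_, rfl⟩
  have hLY : (Lᴴ * Y)ᴴ = Y * L := by
    rw [conjTranspose_mul, conjTranspose_conjTranspose, hY.eq]
  have hZp : Z.PosSemidef := by
    rw [hZ]
    exact hTi.posSemidef.conjTranspose_mul_mul_same _
  have hKH : Kᴴ = Y * L * T⁻¹ * Lᴴ := by
    rw [hK, conjTranspose_mul, conjTranspose_mul, conjTranspose_mul, conjTranspose_conjTranspose,
      hTiH, hY.eq]
    simp only [Matrix.mul_assoc]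
  have hYK : Y * K = Z := by
    rw [hZ, hK, hLY]
    simp only [Matrix.mul_assoc]
  have hKY : Kᴴ * Y = Z := by
    rw [hZ, hKH, hLY]
    simp only [Matrix.mul_assoc]
  have hKYK : Kᴴ * Y * K = Z := by
    rw [hKH, hK, hZ, hLY]
    calc Y * L * T⁻¹ * Lᴴ * Y * (L * (T⁻¹ * Lᴴ * Y)) =
        Y * L * (T⁻¹ * (Lᴴ * Y * L)) * (T⁻¹ * Lᴴ * Y) := by simp only [Matrix.mul_assoc]
      _ = Y * L * T⁻¹ * (Lᴴ * Y) := by
        rw [← hTd, h1, Matrix.mul_one]
        simp only [Matrix.mul_assoc]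
  have hXZ : tr X Z = T.trace.re := by
    rw [← hL]
    have : tr (L * Lᴴ) Z = tr (L * (1 : Matrix k k ℂ) * Lᴴ) Z := by rw [Matrix.mul_one]
    rw [this, tr_sandwich]
    unfold tr
    rw [Matrix.one_mul, hZ, hLY]
    congr 2
    calc Lᴴ * (Y * L * T⁻¹ * (Lᴴ * Y)) * L = (Lᴴ * Y * L) * T⁻¹ * (Lᴴ * Y * L) := by
          simp only [Matrix.mul_assoc]
      _ = T := by rw [← hTd, h2, Matrix.one_mul]
  have hXY : tr X Y = T.trace.re := by
    rw [← hL]
    have : tr (L * Lᴴ) Y = tr (L * (1 : Matrix k k ℂ) * Lᴴ) Y := by rw [Matrix.mul_one]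
    rw [this, tr_sandwich, ← hTd]
    unfold tr
    rw [Matrix.one_mul]
  refine ⟨Z, hZp, fun A hA => ?_, hXZ, fun u hu0 => ?_⟩
  · rw [hXZ, ← hXY]
    have hAp := hS.psd A hA
    -- the inequality for each `c`
    have hc : ∀ c : ℝ, 0 < c → tr A Y + c * tr A Z ≤ (1 + c) * tr X Y := by
      intro c hc
      have hM : ((T⁻¹ * Lᴴ * Y) * A * (T⁻¹ * Lᴴ * Y)ᴴ).PosSemidef :=
        hAp.mul_mul_conjTranspose_same _
      obtain ⟨ε, hε, h3⟩ := pd_pert (PosDef.one : (1 : Matrix k k ℂ).PosDef) hM.1.neg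
      obtain ⟨Q, hQ⟩ : ∃ Q, Q = (T⁻¹ * Lᴴ * Y) * A * (T⁻¹ * Lᴴ * Y)ᴴ := ⟨_, rfl⟩
      rw [← hQ] at h3
      -- the weight
      obtain ⟨s, hs0, hs1, hs2⟩ : ∃ s : ℝ, 0 < s ∧ s ≤ 1 ∧ 0 ≤ (1 - s) * ε - s * c := by
        refine ⟨ε / (ε + c), by positivity, ?_, ?_⟩
        · rw [div_le_one (by positivity)]
          linarith
        · have : (1 - ε / (ε + c)) * ε - ε / (ε + c) * c = 0 := by
            field_simp
            ring
          rw [this]
      have hD : ((1 - K) * A * (1 - K)ᴴ).PosSemidef := hAp.mul_mul_conjTranspose_same _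
      obtain ⟨W, hW⟩ : ∃ W, W = (1 - s) • X + s • A := ⟨_, rfl⟩
      have hWS : W ∈ S := by
        rw [hW]
        exact hS.conv hX hA (by linarith) hs0.le (by ring)
      obtain ⟨B, hB⟩ : ∃ B, B = W - (s * (c / (1 + c))) • ((1 - K) * A * (1 - K)ᴴ) := ⟨_, rfl⟩
      have hWB : (W - B).PosSemidef := by
        rw [hB, sub_sub_cancel]
        exact hD.smul (by positivity)
      have hKK : K * A * Kᴴ = L * Q * Lᴴ := by
        rw [hQ, hK, conjTranspose_mul]
        simp only [Matrix.mul_assoc]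
      have hBid : (1 + c) • B = s • ((1 + c • K) * A * (1 + c • K)ᴴ) +
          (1 + c) • (L * ((1 - s) • 1 - (s * c) • Q) * Lᴴ) := by
        have g1 : L * ((1 - s) • 1 - (s * c) • Q) * Lᴴ = (1 - s) • X - (s * c) • (K * A * Kᴴ) := by
          rw [Matrix.mul_sub, Matrix.sub_mul, Matrix.mul_smul, Matrix.smul_mul, Matrix.mul_one, hL,
            Matrix.mul_smul, Matrix.smul_mul, hKK]
        have g2 : (1 - K) * A * (1 - K)ᴴ = A - K * A - A * Kᴴ + K * A * Kᴴ := by
          rw [conjTranspose_sub, conjTranspose_one]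
          noncomm_ring
        have g3 : (1 + c • K) * A * (1 + c • K)ᴴ =
            A + c • (K * A) + c • (A * Kᴴ) + (c * c) • (K * A * Kᴴ) := by
          rw [conjTranspose_add, conjTranspose_one, conjTranspose_smul, star_trivial]
          simp only [Matrix.add_mul, Matrix.mul_add, Matrix.one_mul, Matrix.mul_one,
            Matrix.smul_mul, Matrix.mul_smul, smul_smul]
          module
        have g4 : (1 + c) * (s * (c / (1 + c))) = s * c := by
          field_simp
        rw [g1, g3, hB, hW, g2, smul_sub, smul_smul, g4]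
        module
      have hBp : B.PosSemidef := by
        have g5 : ((1 - s) • (1 : Matrix k k ℂ) - (s * c) • Q).PosSemidef := by
          have g6 : (1 - s) • (1 : Matrix k k ℂ) - (s * c) • Q =
              (s * c / ε) • (1 + ε • -Q) + (((1 - s) * ε - s * c) / ε) • (1 : Matrix k k ℂ) := by
            have g7 : ((1 - s) * ε - s * c) / ε = (1 - s) - s * c / ε := by
              field_simp
            have g8 : s * c / ε * ε = s * c := by field_simp
            rw [g7, smul_add, smul_smul, g8, smul_neg]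
            module
          rw [g6]
          exact (h3.smul (by positivity)).add (PosSemidef.one.smul (by positivity))
        have g9 : ((1 + c) • B).PosSemidef := by
          rw [hBid]
          exact ((hAp.mul_mul_conjTranspose_same _).smul hs0.le).add
            ((g5.mul_mul_conjTranspose_same L).smul (by positivity))
        have g10 : B = (1 + c)⁻¹ • ((1 + c) • B) := by
          rw [smul_smul, inv_mul_cancel₀ (by positivity), one_smul]
        rw [g10]
        exact g9.smul (by positivity)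
      have hBS : B ∈ S := hS.her W hWS B hBp hWB
      have h5 := hN B hBS
      have h6 : tr ((1 - K) * A * (1 - K)ᴴ) Y = tr A Y - tr A Z := by
        rw [tr_sandwich, ← tr_sub_right]
        congr 1
        rw [conjTranspose_sub, conjTranspose_one, Matrix.sub_mul, Matrix.one_mul, hKY,
          Matrix.mul_sub, Matrix.mul_one, Matrix.sub_mul, hYK]
        have : Z * K = Z := by
          rw [← hKY]
          exact hKYK.trans hKY.symm
        rw [this]
        abel
      rw [hB, tr_sub_left, hW, tr_add_left, tr_smul_left, tr_smul_left, tr_smul_left, h6] at h5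
      have h7 : s * (tr A Y - c / (1 + c) * (tr A Y - tr A Z)) ≤ s * tr X Y := by linarith
      have h8 := le_of_mul_le_mul_left h7 hs0
      have h9 : (1 + c) * (tr A Y - c / (1 + c) * (tr A Y - tr A Z)) ≤ (1 + c) * tr X Y :=
        mul_le_mul_of_nonneg_left h8 (by positivity)
      have h10 : (1 + c) * (tr A Y - c / (1 + c) * (tr A Y - tr A Z)) =
          tr A Y + c * tr A Z := by
        field_simp
        ring
      linarith
    by_contra hcon
    push Not at hcon
    have hd : 0 < tr A Z - tr X Y := by linarith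
    obtain ⟨c, hc0, hc1⟩ : ∃ c : ℝ, 0 < c ∧ |tr X Y - tr A Y| < c * (tr A Z - tr X Y) := by
      refine ⟨(|tr X Y - tr A Y| + 1) / (tr A Z - tr X Y), by positivity, ?_⟩
      rw [div_mul_cancel₀ _ hd.ne']
      linarith
    have h11 := hc c hc0
    have h12 := le_abs_self (tr X Y - tr A Y)
    nlinarith
  · have h3 : star u ⬝ᵥ (Z *ᵥ u) = 0 := by rw [hu0, dotProduct_zero]
    have h4 : star ((Lᴴ * Y) *ᵥ u) ⬝ᵥ (T⁻¹ *ᵥ ((Lᴴ * Y) *ᵥ u)) = 0 := by
      rw [← h3, hZ]
      simp only [star_mulVec, dotProduct_mulVec, vecMul_vecMul, mulVec_mulVec, Matrix.mul_assoc]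
    have h5 : (Lᴴ * Y) *ᵥ u = 0 := by
      by_contra hne
      have := hTi.dotProduct_mulVec_pos hne
      rw [h4] at this
      exact lt_irrefl _ this
    rw [← hL, mulVec_mulVec, Matrix.mul_assoc, ← mulVec_mulVec, h5, mulVec_zero]

end mat

end Pool.Agent.R483.CC
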